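import Pool.Agent.Helper87_UT.Stmts

/-!
# UT, module PLY: the run of the tester
-/

set_option autoImplicit false

namespace Pool.Agent.UT.H41

open Pool.Agent.UT

theorem play_succ (next : View → Move) (a b : ℕ) (coins : List Bool) (adj : ℕ → ℕ → Bool)
    (t : ℕ) (answers : List Bool) :
    play next a b coins adj (t + 1) answers =
      match next ⟨a, b, coins, answers⟩ with
      | .output r => r
      | .query i j => play next a b coins adj t (answers ++ [adj i j]) := rfl

theorem play_aux (V : List Bool × List Bool → Bool) (p : Polynomial ℕ) (a b : ℕ)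
    (coins : List Bool) (adj : ℕ → ℕ → Bool) :
    ∀ k c t : ℕ, c + k = tQ a * tQ a → k < t →
    play (tNext V p) a b coins adj t ((List.range c).map fun c => adj (c / tQ a) (c % tQ a)) =
    let w := tEnc a (coins.take (2 * tm a * tκ a))
      ((List.range (tQ a * tQ a)).map fun c => adj (c / tQ a) (c % tQ a))
    let f : ℕ → Bool := fun i => V (w, (coins.drop (2 * tm a * tκ a +
      i * p.eval w.length)).take (p.eval w.length))
    maj3 (f 0) (f 1) (f 2) := by
  intro k
  induction k with
  | zero =>
    intro c t hc ht
    obtain ⟨t, rfl⟩ : ∃ t', t = t' + 1 := ⟨t - 1, by omega⟩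
    have hc' : c = tQ a * tQ a := by omega
    subst hc'
    rw [play_succ]
    unfold tNext
    simp only [List.length_map, List.length_range, lt_irrefl, if_false]
  | succ k ih =>
    intro c t hc ht
    obtain ⟨t, rfl⟩ : ∃ t', t = t' + 1 := ⟨t - 1, by omega⟩
    have hlt : c < tQ a * tQ a := by omega
    rw [play_succ]
    have hn : tNext V p ⟨a, b, coins, (List.range c).map fun c => adj (c / tQ a) (c % tQ a)⟩ =
        .query (c / tQ a) (c % tQ a) := by
      unfold tNext
      simp only [List.length_map, List.length_range, hlt, if_true]
    rw [hn]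
    have h1 := ih (c + 1) t (by omega) (by omega)
    rw [← h1, List.range_succ, List.map_append]
    rfl

/-- PLY: the run of the tester. -/
theorem ply : PlyStmt := by
  intro V p a b n coins adj _ hn
  exact play_aux V p a b coins adj (tQ a * tQ a) 0 n (by omega) hn

end Pool.Agent.UT.H41
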