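import Pool.Agent.Helper87_UT.Stmts

/-!
# UT, module POL: the polynomial of the tester
-/

set_option autoImplicit false

namespace Pool.Agent.UT.H41

open Pool.Agent.UT

theorem eval_le_eval (p : Polynomial ℕ) {x y : ℕ} (h : x ≤ y) : p.eval x ≤ p.eval y := by
  rw [Polynomial.eval_eq_sum_range, Polynomial.eval_eq_sum_range]
  exact Finset.sum_le_sum fun i _ => Nat.mul_le_mul_left _ (Nat.pow_le_pow_left h i)

/-- bound for the number of blocks -/
noncomputable def KP : Polynomial ℕ := Polynomial.C 10 * (Polynomial.C 16 * Polynomial.X) ^ 2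

/-- sample size per block -/
noncomputable def TP : Polynomial ℕ :=
  (Polynomial.C 500 * (Polynomial.C 16 * Polynomial.X) ^ 2) ^ 2

/-- bound for the number of test pairs -/
noncomputable def MP : Polynomial ℕ :=
  Polynomial.C 16 * (Polynomial.C 16 * Polynomial.X) ^ 4 * (KP * TP + Polynomial.C 8)

/-- bound for the number of samples -/
noncomputable def QP : Polynomial ℕ := KP * TP + Polynomial.C 2 * MP

theorem tk_le (a : ℕ) (ha : 1 ≤ a) : tk a ≤ KP.eval a := by
  unfold tk tκ KP
  simp only [Polynomial.eval_mul, Polynomial.eval_C, Polynomial.eval_pow, Polynomial.eval_X]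
  have h1 : 1 < 5 * (16 * a) ^ 2 := by nlinarith
  have h2 := Nat.pow_pred_clog_lt_self (b := 2) (by norm_num) h1
  have h3 : 0 < Nat.clog 2 (5 * (16 * a) ^ 2) := Nat.clog_pos (by norm_num) h1
  obtain ⟨m, hm⟩ : ∃ m, Nat.clog 2 (5 * (16 * a) ^ 2) = m + 1 :=
    ⟨_, (Nat.succ_pred_eq_of_pos h3).symm⟩
  rw [hm] at h2 ⊢
  simp only [Nat.pred_succ] at h2
  rw [pow_succ]
  omega

theorem tκ_le (a : ℕ) (ha : 1 ≤ a) : tκ a ≤ KP.eval a :=
  ((Nat.lt_two_pow_self (n := tκ a)).le).trans (tk_le a ha)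

theorem tt_le (a : ℕ) : tt a ≤ TP.eval a := by
  unfold tt TP
  simp only [Polynomial.eval_mul, Polynomial.eval_C, Polynomial.eval_pow, Polynomial.eval_X]
  exact le_rfl

theorem tm_le (a : ℕ) (ha : 1 ≤ a) : tm a ≤ MP.eval a := by
  unfold tm MP
  simp only [Polynomial.eval_mul, Polynomial.eval_C, Polynomial.eval_pow, Polynomial.eval_X,
    Polynomial.eval_add]
  exact Nat.mul_le_mul_left _ (Nat.add_le_add_right (Nat.mul_le_mul (tk_le a ha) (tt_le a)) _)

theorem tQ_le (a : ℕ) (ha : 1 ≤ a) : tQ a ≤ QP.eval a := by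
  unfold tQ QP
  simp only [Polynomial.eval_mul, Polynomial.eval_C, Polynomial.eval_add]
  exact Nat.add_le_add (Nat.mul_le_mul (tk_le a ha) (tt_le a))
    (Nat.mul_le_mul_left _ (tm_le a ha))

theorem tEnc_length (a : ℕ) (lab ans : List Bool) :
    (tEnc a lab ans).length = 3 * a + 3 * lab.length + 3 * ans.length := by
  unfold tEnc
  simp only [List.length_append, List.length_flatMap, List.length_cons, List.length_nil,
    List.map_const', List.sum_replicate, List.length_range, smul_eq_mul]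
  ring

/-- POL: the polynomial of the tester. -/
theorem pol : PolStmt := by
  intro p
  refine ⟨QP * QP + Polynomial.C 1 + QP + (Polynomial.C 2 * MP * KP + Polynomial.C 3 *
    p.comp (Polynomial.C 3 * Polynomial.X + Polynomial.C 3 * (Polynomial.C 2 * MP * KP) +
      Polynomial.C 3 * (QP * QP))), ?_⟩
  intro a b ha lab ans hlab hans
  have hmono := fun (P : Polynomial ℕ) => eval_le_eval P (Nat.le_add_right a b)
  simp only [Polynomial.eval_add, Polynomial.eval_mul, Polynomial.eval_C, Polynomial.eval_X,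
    Polynomial.eval_comp]
  have hQ : tQ a ≤ QP.eval (a + b) := (tQ_le a ha).trans (hmono QP)
  have hM : tm a ≤ MP.eval (a + b) := (tm_le a ha).trans (hmono MP)
  have hK : tκ a ≤ KP.eval (a + b) := (tκ_le a ha).trans (hmono KP)
  have hQQ : tQ a * tQ a ≤ QP.eval (a + b) * QP.eval (a + b) := Nat.mul_le_mul hQ hQ
  have hMK : 2 * tm a * tκ a ≤ 2 * MP.eval (a + b) * KP.eval (a + b) :=
    Nat.mul_le_mul (Nat.mul_le_mul_left _ hM) hK
  have hw : (tEnc a lab ans).length ≤ 3 * (a + b) + 3 * (2 * MP.eval (a + b) * KP.eval (a + b)) +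
      3 * (QP.eval (a + b) * QP.eval (a + b)) := by
    rw [tEnc_length, hlab, hans]
    omega
  have hp := eval_le_eval p hw
  refine ⟨?_, ?_, ?_⟩
  · omega
  · omega
  · omega

end Pool.Agent.UT.H41
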